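import Pool.Agent.H.MP_9fb7a1_lc.B

set_option autoImplicit false

namespace Pool.Agent.Results.MP_ef7593_lc.Yes

open Pool.Agent.H.MP_9fb7a1_lc Pool.Agent.Lib.helper21.PR

/-- Every attractive c.e. degree is high. -/
theorem result (A : ℕ → Bool) (hA : CEDeg A) (h : Attractive A) :
    TuringEquivalent (orc (J A)) (orc (J (J fun _ => false))) :=
  high hA h

end Pool.Agent.Results.MP_ef7593_lc.Yes
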